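import Pool.Agent.Helper19.HN.St

/-! # HN, module ELE: the embeddings -/

namespace Pool.Agent.Helper4.HN.ELE

open Ordinal Cardinal ZFSet Order Pool.Agent.Helper73.HODC Pool.Agent.Helper73.HM
open Pool.Agent.Helper73.HE Pool.Agent.Helper73.HU Pool.Agent.Helper19.HN

/-! ### isomorphic structures -/

theorem cons_mem {M : Set ZFSet.{0}} {x : ZFSet.{0}} {v : ℕ → ZFSet.{0}} (hx : x ∈ M)
    (hv : ∀ n, v n ∈ M) : ∀ n, cons x v n ∈ M := by
  intro n
  cases n with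
  | zero => exact hx
  | succ n => exact hv n

theorem cons_app (f : ZFSet.{0} → ZFSet.{0}) (x : ZFSet.{0}) (v : ℕ → ZFSet.{0}) :
    cons (f x) (fun n => f (v n)) = fun n => f (cons x v n) := by
  funext n
  cases n <;> rfl

theorem sat_iso {M N : Set ZFSet.{0}} {f : ZFSet.{0} → ZFSet.{0}} (hf : ∀ x ∈ M, f x ∈ N)
    (hs : ∀ y ∈ N, ∃ x ∈ M, f x = y) (hi : ∀ x ∈ M, ∀ y ∈ M, f x = f y → x = y)
    (hm : ∀ x ∈ M, ∀ y ∈ M, x ∈ y ↔ f x ∈ f y) (φ : Fm) : ∀ v : ℕ → ZFSet.{0},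
    (∀ n, v n ∈ M) → (Sat M φ v ↔ Sat N φ (fun n => f (v n))) := by
  induction φ with
  | mem i j =>
    intro v hv
    exact hm _ (hv i) _ (hv j)
  | eq i j =>
    intro v hv
    exact ⟨fun h => congrArg f h, fun h => hi _ (hv i) _ (hv j) h⟩
  | neg φ ih =>
    intro v hv
    exact not_congr (ih v hv)
  | and φ ψ ih1 ih2 =>
    intro v hv
    exact and_congr (ih1 v hv) (ih2 v hv)
  | all φ ih =>
    intro v hv
    constructor
    · intro h y hy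
      obtain ⟨x, hx, rfl⟩ := hs y hy
      rw [cons_app]
      exact (ih _ (cons_mem hx hv)).1 (h x hx)
    · intro h x hx
      have h1 := h (f x) (hf x hx)
      rw [cons_app] at h1
      exact (ih _ (cons_mem hx hv)).2 h1

/-! ### the sets coded by sets of ordinals -/

/-- the set coded by `x` -/
noncomputable def sD (c : Ordinal.{0}) (D : Ordinal.{0} → ZFSet.{0}) (x : ZFSet.{0}) :
    ZFSet.{0} := ZFSet.sep (fun w => ∃ a, a ∈ st x ∧ a < c ∧ D a = w) (V_ c)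

theorem mem_sD {c : Ordinal.{0}} {D : Ordinal.{0} → ZFSet.{0}} (hD : Enm c D)
    {x w : ZFSet.{0}} : w ∈ sD c D x ↔ ∃ a, a ∈ st x ∧ a < c ∧ D a = w := by
  unfold sD
  rw [ZFSet.mem_sep]
  refine ⟨fun h => h.2, fun h => ⟨?_, h⟩⟩
  obtain ⟨a, -, ha, rfl⟩ := h
  exact mem_vonNeumann.2 (hD.hod a ha).2

theorem dp_D {c : Ordinal.{0}} {D : Ordinal.{0} → ZFSet.{0}} (hD : Enm c D) (i j : ℕ) :
    DP (fun v => v i = D (v j).rank) := hD.dp.rename (fun n => if n = 0 then i else j)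

theorem sD_hod {c : Ordinal.{0}} {D : Ordinal.{0} → ZFSet.{0}} (hD : Enm c D)
    {x : ZFSet.{0}} (hx : HOD x) : HOD (sD c D x) := by
  refine HOD.intro _ (DP.od ?_) fun z hz => ?_
  · refine dp_subst (Q := fun x v => v 0 = sD c D x) hx ?_
    refine (DP.all (Q := fun z v => z ∈ v 1 ↔ ∃ a : Ordinal.{0}, a ∈ st (v 0) ∧ a < c ∧
      z = D a) ?_).congr fun v => ?_
    · refine (DP.mem 0 2).iff ?_
      refine DP.exO (Q := fun a v => a ∈ st (v 1) ∧ a < c ∧ v 0 = D a) ?_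
      exact (DP.st 0 2).and ((DP.rank_lt_ord 0 c).and (dp_D hD 1 0))
    · constructor
      · intro (h : v 1 = sD c D (v 0)) z
        rw [h, mem_sD hD]
        exact ⟨fun ⟨a, h1, h2, h3⟩ => ⟨a, h1, h2, h3.symm⟩,
          fun ⟨a, h1, h2, h3⟩ => ⟨a, h1, h2, h3.symm⟩⟩
      · intro h
        change v 1 = sD c D (v 0)
        ext z
        rw [h z, mem_sD hD]
        exact ⟨fun ⟨a, h1, h2, h3⟩ => ⟨a, h1, h2, h3.symm⟩,
          fun ⟨a, h1, h2, h3⟩ => ⟨a, h1, h2, h3.symm⟩⟩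
  · obtain ⟨a, -, ha, rfl⟩ := (mem_sD hD).1 hz
    exact (hD.hod a ha).1

theorem sD_hodV {c : Ordinal.{0}} {D : Ordinal.{0} → ZFSet.{0}} (hD : Enm c D)
    {x : ZFSet.{0}} (hx : HOD x) : sD c D x ∈ hodV c := by
  refine ⟨sD_hod hD hx, rank_le_iff.2 fun {z} hz => ?_⟩
  obtain ⟨a, -, ha, rfl⟩ := (mem_sD hD).1 hz
  exact (hD.hod a ha).2

/-- the code of a set in HOD -/
theorem code_mem {c : Ordinal.{0}} {D : Ordinal.{0} → ZFSet.{0}} (hD : Enm c D)
    {x : ZFSet.{0}} (hx : HOD x) (g : Ordinal.{0}) : ordSet g {a | D a ∈ x} ∈ hodPow g := by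
  refine mem_hodPow.2 ⟨ordSet_sub _ _, od_ordSet ?_ g⟩
  refine dp_subst (Q := fun x v => D (v 0).rank ∈ x) hx ?_
  refine (DP.ex (Q := fun y v => y = D (v 1).rank ∧ y ∈ v 0) ?_).congr fun v => ?_
  · exact (dp_D hD 0 2).and (DP.mem 0 1)
  · constructor
    · intro h
      exact ⟨_, rfl, h⟩
    · rintro ⟨_, rfl, h⟩
      exact h

theorem sD_code {c : Ordinal.{0}} {D : Ordinal.{0} → ZFSet.{0}} (hD : Enm c D)
    {x : ZFSet.{0}} (hx : x ∈ hodV c) : sD c D (ordSet c {a | D a ∈ x}) = x := by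
  ext w
  rw [mem_sD hD]
  constructor
  · rintro ⟨a, ha, -, rfl⟩
    exact (mem_st_ordSet.1 ha).2
  · intro hw
    obtain ⟨a, ha, rfl⟩ := hD.sur w (HOD_elem hx.1 hw) ((rank_lt_of_mem hw).trans_le hx.2)
    exact ⟨a, mem_st_ordSet.2 ⟨ha, hw⟩, ha, rfl⟩

/-! ### the points with enough closure -/

/-- the closure properties of a point `g` -/
structure Good (c : Ordinal.{0}) (D m : Ordinal.{0} → ZFSet.{0}) (g : Ordinal.{0}) : Prop where
  rk : ∀ a < g, (D a).rank < g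
  low : ∀ x, HOD x → x.rank < g → ∃ a < g, D a = x
  inj : ∀ k < g, ∀ l < g, cut (m k) g = cut (m l) g → m k = m l
  rkm : ∀ k < g, (m k).rank < c → (m k).rank < g
  fix : ∀ x, HOD x → x.rank < g → ∃ k < g, m k = x

theorem exists_good {c : Cardinal.{0}} {D m : Ordinal.{0} → ZFSet.{0}} (hc : c.IsRegular)
    (hc' : ℵ₀ < c) (hD : Enm c.ord D) (hm : ∀ k < c.ord, m k ∈ hodV c.ord)
    (hs : ∀ x ∈ hodV c.ord, ∃ k < c.ord, m k = x) :
    ∃ C, Club C c.ord ∧ ∀ g ∈ C, g < c.ord → Good c.ord D m g := by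
  classical
  have hτ : ℵ₀ < c.ord.cof := reg_cof hc hc'
  have hlim := isSuccLimit_of_cof hτ
  -- bounds for the indices
  have h1 : ∀ i, ∃ b, i < c.ord → b < c.ord ∧ ∀ a < c.ord, (D a).rank < i → a < b := by
    intro i
    by_cases hi : i < c.ord
    · obtain ⟨b, hb⟩ := hD.bdd i hi
      exact ⟨b, fun _ => hb⟩
    · exact ⟨0, fun h => absurd h hi⟩
  choose b hb using h1
  -- differences
  have h2 : ∀ k l, ∃ d, k < c.ord → l < c.ord → d < c.ord ∧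
      (m k ≠ m l → ∃ z : ZFSet.{0}, z.rank ≤ d ∧ ¬ (z ∈ m k ↔ z ∈ m l)) := by
    intro k l
    by_cases hkl : (k < c.ord ∧ l < c.ord) ∧ m k ≠ m l
    · obtain ⟨⟨hk, hl⟩, hne⟩ := hkl
      have h3 : ∃ z, ¬ (z ∈ m k ↔ z ∈ m l) := by
        by_contra hcon
        push Not at hcon
        exact hne (ZFSet.ext hcon)
      obtain ⟨z, hz⟩ := h3
      refine ⟨z.rank, fun _ _ => ⟨?_, fun _ => ⟨z, le_rfl, hz⟩⟩⟩
      by_cases hzk : z ∈ m k
      · exact (rank_lt_of_mem hzk).trans_le (hm k hk).2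
      · have hzl : z ∈ m l := by
          by_contra hzl
          exact hz ⟨fun h => absurd h hzk, fun h => absurd h hzl⟩
        exact (rank_lt_of_mem hzl).trans_le (hm l hl).2
    · refine ⟨0, fun hk hl => ⟨pos_of_cof hτ, fun hne => absurd ⟨⟨hk, hl⟩, hne⟩ hkl⟩⟩
  choose d hd using h2
  -- the indices of the sets of small rank
  have h4 : ∀ a, ∃ k, a < c.ord → k < c.ord ∧ m k = D a := by
    intro a
    by_cases ha : a < c.ord
    · obtain ⟨k, hk⟩ := hs (D a) ⟨(hD.hod a ha).1, (hD.hod a ha).2.le⟩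
      exact ⟨k, fun _ => hk⟩
    · exact ⟨0, fun h => absurd h ha⟩
  choose t ht using h4
  set r : Ordinal.{0} → Ordinal.{0} := fun k => if (m k).rank < c.ord then (m k).rank else 0
    with hr
  have hrc : ∀ k < c.ord, r k < c.ord := by
    intro k _
    simp only [hr]
    split_ifs with h
    · exact h
    · exact pos_of_cof hτ
  have K1 := Club.closure hc hc' (fun a => (D a).rank) fun a ha => (hD.hod a ha).2
  have K2 := Club.closure hc hc' b fun a ha => (hb a ha).1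
  have K3 := Club.closure hc hc' t fun a ha => (ht a ha).1
  have K4 := Club.closure hc hc' r hrc
  have K5 := Club.diag hc hc' (C := fun k => {a | ∀ l < a, k < c.ord → d k l < a})
    fun k hk => Club.diag hc hc' (C := fun l => {a | k < c.ord → d k l < a}) fun l hl => by
      have h5 := club_Ioi hlim (hd k l hk hl).1
      exact ⟨fun a ha => by
        obtain ⟨y, hy1, hy2⟩ := h5.1 a ha
        exact ⟨y, fun _ => hy1, hy2⟩, fun a ha ha0 hu hk' => h5.2 a ha ha0 fun x hx => by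
        obtain ⟨y, hy1, hy2⟩ := hu x hx
        exact ⟨y, hy1 hk', hy2⟩⟩
  refine ⟨_, (K1.inter hτ (K2.inter hτ (K3.inter hτ (K4.inter hτ (K5.inter hτ
    (club_limit hτ)))))), ?_⟩
  rintro g ⟨g1, g2, g3, g4, g5, g6⟩ hg
  have g6 : IsSuccLimit g := g6
  have hlow : ∀ x, HOD x → x.rank < g → ∃ a < g, D a = x := by
    intro x hx hxg
    obtain ⟨a, ha, rfl⟩ := hD.sur x hx (hxg.trans hg)
    have h6 : Order.succ (D a).rank < g := g6.succ_lt hxg
    exact ⟨a, ((hb _ (h6.trans hg)).2 a ha (Order.lt_succ _)).trans (g2 _ h6), rfl⟩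
  refine ⟨g1, hlow, ?_, ?_, ?_⟩
  · intro k hk l hl h
    by_contra hne
    obtain ⟨z, hz, hz'⟩ := (hd k l (hk.trans hg) (hl.trans hg)).2 hne
    have hzg : z.rank < g := hz.trans_lt (g5 k hk l hl (hk.trans hg))
    have h7 : z ∈ cut (m k) g ↔ z ∈ cut (m l) g := by rw [h]
    rw [mem_cut, mem_cut] at h7
    exact hz' ⟨fun h8 => (h7.1 ⟨h8, hzg⟩).1, fun h8 => (h7.2 ⟨h8, hzg⟩).1⟩
  · intro k hk hkc
    have h7 := g4 k hk
    simp only [hr, if_pos hkc] at h7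
    exact h7
  · intro x hx hxg
    obtain ⟨a, ha, rfl⟩ := hlow x hx hxg
    exact ⟨t a, g3 a ha, (ht a (ha.trans hg)).2⟩

/-! ### the cuts -/

theorem cut_hodV {x : ZFSet.{0}} (hx : HOD x) (g : Ordinal.{0}) : cut x g ∈ hodV g :=
  ⟨HOD_cut hx g, rank_le_iff.2 fun {_} hz => (mem_cut.1 hz).2⟩

theorem cut_toZFSet {g a : Ordinal.{0}} (h : g ≤ a) : cut a.toZFSet g = g.toZFSet := by
  ext z
  rw [mem_cut, mem_toZFSet_iff, mem_toZFSet_iff]
  constructor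
  · rintro ⟨⟨b, -, rfl⟩, hb⟩
    rw [rank_toZFSet] at hb
    exact ⟨b, hb, rfl⟩
  · rintro ⟨b, hb, rfl⟩
    exact ⟨⟨b, hb.trans_le h, rfl⟩, by rw [rank_toZFSet]; exact hb⟩

theorem cut_of_rank {x : ZFSet.{0}} {g : Ordinal.{0}} (h : x.rank ≤ g) : cut x g = x := by
  ext z
  rw [mem_cut]
  exact ⟨fun h => h.1, fun hz => ⟨hz, (rank_lt_of_mem hz).trans_le h⟩⟩

theorem cut_sur {c g : Ordinal.{0}} {X D : Ordinal.{0} → ZFSet.{0}} (hD : Enm c D)
    (hg : Good c D (fun k => sD c D (X k)) g) (hgc : g < c) (hB : g ∉ BadSet X) {x : ZFSet.{0}}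
    (hx : x ∈ hodV g) : ∃ k < g, cut (sD c D (X k)) g = x := by
  have h1 : ∃ k < g, cut (X k) g = ordSet g {a | D a ∈ x} := by
    by_contra hcon
    push Not at hcon
    exact hB ⟨_, code_mem hD hx.1 g, hcon⟩
  obtain ⟨k, hk, hk'⟩ := h1
  refine ⟨k, hk, ?_⟩
  have h2 : ∀ a < g, (a ∈ st (X k) ↔ D a ∈ x) := by
    intro a ha
    have h3 : a ∈ st (cut (X k) g) ↔ a ∈ st (ordSet g {a | D a ∈ x}) := by rw [hk']
    rw [st_cut, mem_st_ordSet] at h3
    exact ⟨fun h => (h3.1 ⟨h, ha⟩).2, fun h => (h3.2 ⟨ha, h⟩).1⟩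
  ext w
  rw [mem_cut, mem_sD hD]
  constructor
  · rintro ⟨⟨a, ha, hac, rfl⟩, hw⟩
    obtain ⟨a', ha', he⟩ := hg.low _ (hD.hod a hac).1 hw
    rw [← he]
    have h4 : a' = a := hD.inj _ (ha'.trans hgc) _ hac he
    rw [h4] at ha' ⊢
    exact (h2 a ha').1 ha
  · intro hw
    have hwg : w.rank < g := (rank_lt_of_mem hw).trans_le hx.2
    obtain ⟨a, ha, rfl⟩ := hg.low w (HOD_elem hx.1 hw) hwg
    exact ⟨⟨a, (h2 a ha).2 hw, ha.trans hgc, rfl⟩, hwg⟩

/-! ### the modules -/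

theorem hul : StHUL := by
  intro c X D C hc hc' hX hD hC hB
  have hτ : ℵ₀ < c.ord.cof := reg_cof hc hc'
  have hm : ∀ k < c.ord, sD c.ord D (X k) ∈ hodV c.ord := fun k hk =>
    sD_hodV hD (HOD_of_mem (hX.1 k hk))
  have hs : ∀ x ∈ hodV c.ord, ∃ k < c.ord, sD c.ord D (X k) = x := by
    intro x hx
    obtain ⟨k, hk, hk'⟩ := hX.2 _ (code_mem hD hx.1 c.ord)
    exact ⟨k, hk, by rw [hk']; exact sD_code hD hx⟩
  obtain ⟨C1, hC1, hC1'⟩ := exists_good hc hc' hD hm hs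
  exact ⟨fun k => sD c.ord D (X k), C ∩ C1, hm, hs, hC.inter hτ hC1,
    fun g hg hgc x hx => cut_sur hD (hC1' g hg.2 hgc) hgc (hB g hg.1 hgc) hx⟩

/-- the embedding -/
noncomputable def emb (m : Ordinal.{0} → ZFSet.{0}) (g : Ordinal.{0}) (x : ZFSet.{0}) :
    ZFSet.{0} := m (Classical.epsilon fun k => k < g ∧ cut (m k) g = x)

theorem emb_spec {m : Ordinal.{0} → ZFSet.{0}} {g : Ordinal.{0}} {x : ZFSet.{0}}
    (h : ∃ k < g, cut (m k) g = x) : ∃ k < g, emb m g x = m k ∧ cut (m k) g = x :=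
  ⟨_, (Classical.epsilon_spec h).1, rfl, (Classical.epsilon_spec h).2⟩

theorem emb_cut {c g k : Ordinal.{0}} {D m : Ordinal.{0} → ZFSet.{0}} (hg : Good c D m g)
    (hk : k < g) : emb m g (cut (m k) g) = m k := by
  obtain ⟨l, hl, h1, h2⟩ := emb_spec (m := m) (g := g) (x := cut (m k) g) ⟨k, hk, rfl⟩
  rw [h1]
  exact hg.inj l hl k hk h2

theorem hemb {c g k₀ : Ordinal.{0}} {D m : Ordinal.{0} → ZFSet.{0}} (hgc : g < c)
    (hm : ∀ k < c, m k ∈ hodV c) (hg : Good c D m g)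
    (hs : ∀ x ∈ hodV g, ∃ k < g, cut (m k) g = x) (hk : k₀ < g) (hk₀ : m k₀ = c.toZFSet)
    (hel : ∀ (φ : Fm) (v : ℕ → ZFSet.{0}), (∀ n, ∃ k < g, m k = v n) →
      (Sat (hodV c) φ v ↔ Sat {x | ∃ k < g, m k = x} φ v)) : HEmb g c (emb m g) := by
  have hmaps : ∀ x ∈ hodV g, emb m g x ∈ hodV c := by
    intro x hx
    obtain ⟨k, hk, h1, -⟩ := emb_spec (hs x hx)
    rw [h1]
    exact hm k (hk.trans hgc)
  have hcut : ∀ x ∈ hodV g, cut (emb m g x) g = x := by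
    intro x hx
    obtain ⟨k, -, h1, h2⟩ := emb_spec (hs x hx)
    rw [h1]
    exact h2
  have hfix : ∀ x ∈ hodV g, x.rank < g → emb m g x = x := by
    intro x hx hxg
    obtain ⟨k, hk, rfl⟩ := hg.fix x hx.1 hxg
    have h1 := emb_cut hg hk
    rwa [cut_of_rank hxg.le] at h1
  refine ⟨hmaps, fun φ v hv => ?_, hfix, hcut, ?_⟩
  · have h1 : ∀ n, ∃ k < g, m k = emb m g (v n) := by
      intro n
      obtain ⟨k, hk, h1, -⟩ := emb_spec (hs _ (hv n))
      exact ⟨k, hk, h1.symm⟩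
    rw [hel φ (fun n => emb m g (v n)) h1]
    refine sat_iso ?_ ?_ ?_ ?_ φ v hv
    · intro x hx
      obtain ⟨k, hk, h1, -⟩ := emb_spec (hs x hx)
      exact ⟨k, hk, h1.symm⟩
    · rintro _ ⟨k, hk, rfl⟩
      exact ⟨cut (m k) g, cut_hodV (hm k (hk.trans hgc)).1 g, emb_cut hg hk⟩
    · intro x hx y hy h
      rw [← hcut x hx, h]
      exact hcut y hy
    · intro x hx y hy
      constructor
      · intro hxy
        rw [hfix x hx ((rank_lt_of_mem hxy).trans_le hy.2)]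
        rw [← hcut y hy] at hxy
        exact (mem_cut.1 hxy).1
      · intro hxy
        obtain ⟨k, hk, h2, h3⟩ := emb_spec (hs x hx)
        have h4 : (m k).rank < c := by
          rw [← h2]
          exact (rank_lt_of_mem hxy).trans_le (hmaps y hy).2
        have h5 := hg.rkm k hk h4
        rw [cut_of_rank h5.le] at h3
        rw [h2, h3] at hxy
        rw [h3] at h5
        rw [← hcut y hy]
        exact mem_cut.2 ⟨hxy, h5⟩
  · have h1 := emb_cut hg hk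
    rwa [hk₀, cut_toZFSet hgc.le] at h1

theorem ele (h : StTV) : StELE := by
  intro c X D C hc hc' hX hD hC hB
  have hτ : ℵ₀ < c.ord.cof := reg_cof hc hc'
  have hm : ∀ k < c.ord, sD c.ord D (X k) ∈ hodV c.ord := fun k hk =>
    sD_hodV hD (HOD_of_mem (hX.1 k hk))
  have hs : ∀ x ∈ hodV c.ord, ∃ k < c.ord, sD c.ord D (X k) = x := by
    intro x hx
    obtain ⟨k, hk, hk'⟩ := hX.2 _ (code_mem hD hx.1 c.ord)
    exact ⟨k, hk, by rw [hk']; exact sD_code hD hx⟩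
  obtain ⟨C1, hC1, hC1'⟩ := exists_good hc hc' hD hm hs
  obtain ⟨C2, hC2, hC2'⟩ := h c (hodV c.ord) (fun k => sD c.ord D (X k)) hc hc' hm hs
  obtain ⟨k₀, hk₀, hk₀'⟩ := hs c.ord.toZFSet ⟨HOD_toZFSet _, by rw [rank_toZFSet]⟩
  refine ⟨C ∩ (C1 ∩ (C2 ∩ {a | k₀ < a})), emb (fun k => sD c.ord D (X k)),
    hC.inter hτ (hC1.inter hτ (hC2.inter hτ (club_Ioi (isSuccLimit_of_cof hτ) hk₀))),
    ?_, ?_, ?_⟩
  · rintro g ⟨g1, g2, g3, g4⟩ hgc
    exact hemb hgc hm (hC1' g g2 hgc) (fun x hx => cut_sur hD (hC1' g g2 hgc) hgc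
      (hB g g1 hgc) hx) g4 hk₀' (hC2' g g3 hgc)
  · rintro g ⟨g1, g2, g3, g4⟩ hgc x hx
    obtain ⟨k, hk, h1, -⟩ := emb_spec (cut_sur hD (hC1' g g2 hgc) hgc (hB g g1 hgc) hx)
    refine ⟨k, hk, ?_⟩
    rintro g' ⟨-, g2', -, -⟩ hkg' hg'c
    have h2 := emb_cut (hC1' g' g2' hg'c) hkg'
    rw [h1]
    exact h2
  · intro x hx
    obtain ⟨k, hk, rfl⟩ := hs x hx
    refine ⟨k, hk, ?_⟩
    rintro g ⟨-, g2, -, -⟩ hkg hgc
    exact emb_cut (hC1' g g2 hgc) hkg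

end Pool.Agent.Helper4.HN.ELE
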